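import Mathlib

set_option autoImplicit false

/-!
Shifts of finite type whose minimum step is quadratic in the number of vertices of a smallest
synchronizing deterministic presentation.
-/

namespace Pool.Agent.Results.MP_560fdc_co.QuadraticStep

open Filter

/-- A presentation over the alphabet `A`: a finite directed graph with vertex set `V`, edge set
`E`, and a label in `A` on every edge. -/
structure Presentation (A : Type) where
  /-- vertices -/
  V : Type
  /-- edges -/
  E : Type
  finite_V : Finite V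
  finite_E : Finite E
  /-- initial vertex of an edge -/
  src : E → V
  /-- terminal vertex of an edge -/
  tgt : E → V
  /-- label of an edge -/
  lab : E → A

namespace Presentation

variable {A : Type}

/-- The set of label sequences of bi-infinite walks in `G`. -/
def shift (G : Presentation A) : Set (ℤ → A) :=
  {x | ∃ e : ℤ → G.E, (∀ i, G.tgt (e i) = G.src (e (i + 1))) ∧ ∀ i, x i = G.lab (e i)}

/-- No vertex has two outgoing edges with the same label. -/
def Deterministic (G : Presentation A) : Prop :=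
  ∀ e e' : G.E, G.src e = G.src e' → G.lab e = G.lab e' → e = e'

/-- `G.IsPath u w v`: there is a path in `G` from `u` to `v` labeled by the word `w`. -/
def IsPath (G : Presentation A) : G.V → List A → G.V → Prop
  | u, [], v => u = v
  | u, a :: w, v => ∃ e : G.E, G.src e = u ∧ G.lab e = a ∧ G.IsPath (G.tgt e) w v

/-- The word `w` synchronizes to the vertex `q`: some path is labeled `w`, and every path
labeled `w` ends at `q`. -/
def SynchronizesTo (G : Presentation A) (w : List A) (q : G.V) : Prop :=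
  (∃ u v, G.IsPath u w v) ∧ ∀ u v, G.IsPath u w v → v = q

/-- A synchronizing deterministic presentation. -/
def IsSynchronizingDeterministic (G : Presentation A) : Prop :=
  G.Deterministic ∧ ∀ q : G.V, ∃ w : List A, G.SynchronizesTo w q

end Presentation

variable {A : Type}

/-- The finite word `w` occurs in the bi-infinite sequence `x`. -/
def Occurs (w : List A) (x : ℤ → A) : Prop :=
  ∃ i : ℤ, ∀ j : Fin w.length, x (i + (j : ℕ)) = w.get j

/-- `X` is a shift of finite type: the set of all bi-infinite sequences avoiding a finite set of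
forbidden words. -/
def IsSFT (X : Set (ℤ → A)) : Prop :=
  ∃ F : Set (List A), F.Finite ∧ X = {x | ∀ w ∈ F, ¬ Occurs w x}

/-- `X` is `M`-step: the set of all bi-infinite sequences avoiding some set of forbidden words,
all of length `M + 1`. -/
def IsStep (M : ℕ) (X : Set (ℤ → A)) : Prop :=
  ∃ F : Set (List A), (∀ w ∈ F, w.length = M + 1) ∧ X = {x | ∀ w ∈ F, ¬ Occurs w x}

/-- The minimum step `m(X)`. -/
noncomputable def minStep (X : Set (ℤ → A)) : ℕ := sInf {M | IsStep M X}

/-- `s(X)`: the least number of vertices of a synchronizing deterministic presentation of `X`. -/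
noncomputable def minVertices (X : Set (ℤ → A)) : ℕ :=
  sInf {n | ∃ G : Presentation A, G.IsSynchronizingDeterministic ∧ G.shift = X ∧ Nat.card G.V = n}

/-- The language of `X`: all finite words occurring in some element of `X`. -/
def language (X : Set (ℤ → A)) : Set (List A) := {w | ∃ x ∈ X, Occurs w x}

/-- `X` is irreducible: any two words `u`, `w` of the language can be joined to a word `u v w`
of the language. -/
def IsIrreducible (X : Set (ℤ → A)) : Prop :=
  X.Nonempty ∧ ∀ u ∈ language X, ∀ w ∈ language X, ∃ v : List A, u ++ v ++ w ∈ language X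

/-! ### The example -/

/-- The vertices: two cycles, of lengths `n + 2` and `n + 3`. -/
abbrev V (n : ℕ) : Type := ZMod (n + 2) ⊕ ZMod (n + 3)

/-- The edges, as a relation: `Step n u x v` says that there is an edge from `u` to `v` with
label `x`. The letters `a, b, c, d, e` are `0, 1, 2, 3, 4`. -/
def Step (n : ℕ) : V n → Fin 5 → V n → Prop
  | .inl i, x, .inl j => ((i = 0 ∧ x = 0) ∨ (i ≠ 0 ∧ (x = 1 ∨ x = 2))) ∧ j = i + 1
  | .inl i, x, .inr j => (i = 0 ∧ x = 3) ∧ j = 1
  | .inr i, x, .inr j => ((i = 0 ∧ x = 1) ∨ (i ≠ 0 ∧ (x = 0 ∨ x = 2))) ∧ j = i + 1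
  | .inr i, x, .inl j => (i = 0 ∧ x = 4) ∧ j = 1

/-- The successor on its cycle. -/
def nxt (n : ℕ) : V n → V n
  | .inl i => .inl (i + 1)
  | .inr i => .inr (i + 1)

theorem Step.det {n : ℕ} {u : V n} {x : Fin 5} {v v' : V n} (h : Step n u x v)
    (h' : Step n u x v') : v = v' := by
  rcases u with i | i <;> rcases v with j | j <;> rcases v' with k | k <;>
    simp only [Step] at h h'
  · rw [h.2, h'.2]
  · obtain ⟨⟨h1, h2⟩, h3⟩ := h'
    subst h2
    rcases h.1 with ⟨_, h⟩ | ⟨_, h | h⟩ <;> simp at h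
  · obtain ⟨⟨h1, h2⟩, h3⟩ := h
    subst h2
    rcases h'.1 with ⟨_, h⟩ | ⟨_, h | h⟩ <;> simp at h
  · rw [h.2, h'.2]
  · rw [h.2, h'.2]
  · obtain ⟨⟨h1, h2⟩, h3⟩ := h
    subst h2
    rcases h'.1 with ⟨_, h⟩ | ⟨_, h | h⟩ <;> simp at h
  · obtain ⟨⟨h1, h2⟩, h3⟩ := h'
    subst h2
    rcases h.1 with ⟨_, h⟩ | ⟨_, h | h⟩ <;> simp at h
  · rw [h.2, h'.2]

/-- Two vertices on different cycles reading the same letter. -/
theorem step_mixed {n : ℕ} {i : ZMod (n + 2)} {k : ZMod (n + 3)} {x : Fin 5} {v v' : V n}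
    (h : Step n (.inl i) x v) (h' : Step n (.inr k) x v') :
    v = .inl (i + 1) ∧ v' = .inr (k + 1) ∧ ¬ (i = 0 ∧ k = 0) := by
  rcases v with j | j <;> rcases v' with l | l <;> simp only [Step] at h h'
  · obtain ⟨h1, h2⟩ := h
    obtain ⟨⟨h3, h4⟩, h5⟩ := h'
    subst h4
    rcases h1 with ⟨_, h⟩ | ⟨_, h | h⟩ <;> simp at h
  · obtain ⟨h1, rfl⟩ := h
    obtain ⟨h3, rfl⟩ := h'
    refine ⟨rfl, rfl, ?_⟩
    rintro ⟨hi, hk⟩
    subst hi hk
    simp at h1 h3
    rw [h1] at h3
    simp at h3
  · obtain ⟨⟨h1, h2⟩, _⟩ := h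
    obtain ⟨⟨h3, h4⟩, h5⟩ := h'
    subst h2
    simp at h4
  · obtain ⟨⟨h1, h2⟩, _⟩ := h
    obtain ⟨h3, h4⟩ := h'
    subst h2
    rcases h3 with ⟨_, h⟩ | ⟨_, h | h⟩ <;> simp at h

/-- Two different vertices on the first cycle reading the same letter. -/
theorem step_left {n : ℕ} {i k : ZMod (n + 2)} (hik : i ≠ k) {x : Fin 5} {v v' : V n}
    (h : Step n (.inl i) x v) (h' : Step n (.inl k) x v') :
    v = .inl (i + 1) ∧ v' = .inl (k + 1) ∧ i ≠ 0 := by
  rcases v with j | j <;> rcases v' with l | l <;> simp only [Step] at h h'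
  · obtain ⟨h1, rfl⟩ := h
    obtain ⟨h3, rfl⟩ := h'
    refine ⟨rfl, rfl, ?_⟩
    intro hi
    subst hi
    simp only [true_and, ne_eq, not_true_eq_false, false_and, or_false] at h1
    subst h1
    rcases h3 with ⟨h, _⟩ | ⟨_, h | h⟩
    · exact hik h.symm
    · simp at h
    · simp at h
  · obtain ⟨h1, _⟩ := h
    obtain ⟨⟨h3, h4⟩, _⟩ := h'
    subst h4
    rcases h1 with ⟨_, h⟩ | ⟨_, h | h⟩ <;> simp at h
  · obtain ⟨⟨h1, h2⟩, _⟩ := h
    obtain ⟨h3, h4⟩ := h'
    subst h2
    rcases h3 with ⟨_, h⟩ | ⟨_, h | h⟩ <;> simp at h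
  · obtain ⟨⟨h1, h2⟩, _⟩ := h
    obtain ⟨⟨h3, h4⟩, _⟩ := h'
    exact absurd (h1.trans h3.symm) hik

/-- Two different vertices on the second cycle reading the same letter. -/
theorem step_right {n : ℕ} {i k : ZMod (n + 3)} (hik : i ≠ k) {x : Fin 5} {v v' : V n}
    (h : Step n (.inr i) x v) (h' : Step n (.inr k) x v') :
    v = .inr (i + 1) ∧ v' = .inr (k + 1) ∧ i ≠ 0 := by
  rcases v with j | j <;> rcases v' with l | l <;> simp only [Step] at h h'
  · obtain ⟨⟨h1, h2⟩, _⟩ := h
    obtain ⟨⟨h3, h4⟩, _⟩ := h'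
    exact absurd (h1.trans h3.symm) hik
  · obtain ⟨⟨h1, h2⟩, _⟩ := h
    obtain ⟨h3, h4⟩ := h'
    subst h2
    rcases h3 with ⟨_, h⟩ | ⟨_, h | h⟩ <;> simp at h
  · obtain ⟨h1, _⟩ := h
    obtain ⟨⟨h3, h4⟩, _⟩ := h'
    subst h4
    rcases h1 with ⟨_, h⟩ | ⟨_, h | h⟩ <;> simp at h
  · obtain ⟨h1, rfl⟩ := h
    obtain ⟨h3, rfl⟩ := h'
    refine ⟨rfl, rfl, ?_⟩
    intro hi
    subst hi
    simp only [true_and, ne_eq, not_true_eq_false, false_and, or_false] at h1
    subst h1
    rcases h3 with ⟨h, _⟩ | ⟨_, h | h⟩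
    · exact hik h.symm
    · simp at h
    · simp at h

/-- The number of pairs of vertices on different cycles. -/
abbrev N (n : ℕ) : ℕ := (n + 2) * (n + 3)

theorem exists_time (n : ℕ) (i : ZMod (n + 2)) (k : ZMod (n + 3)) :
    ∃ t : ℕ, t < N n ∧ i + t = 0 ∧ k + t = 0 := by
  have hc : Nat.Coprime (n + 2) (n + 3) := by
    have : n + 3 = (n + 2) + 1 := rfl
    rw [this]
    exact (Nat.coprime_self_add_right).mpr (Nat.coprime_one_right _)
  obtain ⟨t, ht1, ht2⟩ := Nat.chineseRemainder hc (-i).val (-k).val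
  refine ⟨t % N n, Nat.mod_lt _ (by positivity), ?_, ?_⟩
  · have h1 : ((t % N n : ℕ) : ZMod (n + 2)) = (t : ZMod (n + 2)) := by
      rw [ZMod.natCast_eq_natCast_iff]
      exact (Nat.mod_modEq _ _).of_dvd (Dvd.intro _ rfl)
    have h2 : (t : ZMod (n + 2)) = -i := by
      have := (ZMod.natCast_eq_natCast_iff _ _ _).mpr ht1
      rw [this, ZMod.natCast_zmod_val]
    rw [h1, h2, add_neg_cancel]
  · have h1 : ((t % N n : ℕ) : ZMod (n + 3)) = (t : ZMod (n + 3)) := by
      rw [ZMod.natCast_eq_natCast_iff]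
      exact (Nat.mod_modEq _ _).of_dvd (Dvd.intro_left _ rfl)
    have h2 : (t : ZMod (n + 3)) = -k := by
      have := (ZMod.natCast_eq_natCast_iff _ _ _).mpr ht2
      rw [this, ZMod.natCast_zmod_val]
    rw [h1, h2, add_neg_cancel]

theorem sync_aux {n : ℕ} {f : ℕ → Fin 5} {u u' : ℕ → V n}
    (h : ∀ j < N n, Step n (u j) (f j) (u (j + 1)))
    (h' : ∀ j < N n, Step n (u' j) (f j) (u' (j + 1)))
    (i : ZMod (n + 2)) (k : ZMod (n + 3)) (hu : u 0 = .inl i) (hu' : u' 0 = .inr k) : False := by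
  have key : ∀ j ≤ N n, u j = .inl (i + j) ∧ u' j = .inr (k + j) := by
    intro j
    induction j with
    | zero => intro _; simp [hu, hu']
    | succ j ih =>
      intro hj
      obtain ⟨h1, h2⟩ := ih (by omega)
      have e1 := h j (by omega)
      have e2 := h' j (by omega)
      rw [h1] at e1
      rw [h2] at e2
      obtain ⟨h3, h4, -⟩ := step_mixed e1 e2
      rw [h3, h4]
      push_cast
      constructor <;> ring_nf
  obtain ⟨t, ht, ht1, ht2⟩ := exists_time n i k
  obtain ⟨h1, h2⟩ := key t ht.le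
  have e1 := h t ht
  have e2 := h' t ht
  rw [h1, ht1] at e1
  rw [h2, ht2] at e2
  exact (step_mixed e1 e2).2.2 ⟨rfl, rfl⟩

/-- Words of length `N n` are synchronizing. -/
theorem sync {n : ℕ} {f : ℕ → Fin 5} {u u' : ℕ → V n}
    (h : ∀ j < N n, Step n (u j) (f j) (u (j + 1)))
    (h' : ∀ j < N n, Step n (u' j) (f j) (u' (j + 1))) : u (N n) = u' (N n) := by
  by_contra hne
  have hall : ∀ j ≤ N n, u j ≠ u' j := by
    intro j hj heq
    have : ∀ m, j + m ≤ N n → u (j + m) = u' (j + m) := by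
      intro m
      induction m with
      | zero => intro _; simpa using heq
      | succ m ih =>
        intro hm
        have e := ih (by omega)
        have e1 := h (j + m) (by omega)
        have e2 := h' (j + m) (by omega)
        rw [e] at e1
        exact e1.det e2
    have e := this (N n - j) (by omega)
    rw [show j + (N n - j) = N n by omega] at e
    exact hne e
  rcases hu : u 0 with i | i <;> rcases hu' : u' 0 with k | k
  · have hik : i ≠ k := by
      intro e
      apply hall 0 (Nat.zero_le _)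
      rw [hu, hu', e]
    have key : ∀ j ≤ N n, u j = .inl (i + j) ∧ u' j = .inl (k + j) := by
      intro j
      induction j with
      | zero => intro _; simp [hu, hu']
      | succ j ih =>
        intro hj
        obtain ⟨h1, h2⟩ := ih (by omega)
        have e1 := h j (by omega)
        have e2 := h' j (by omega)
        rw [h1] at e1
        rw [h2] at e2
        obtain ⟨h3, h4, -⟩ := step_left (by simpa using hik) e1 e2
        rw [h3, h4]
        push_cast
        constructor <;> ring_nf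
    obtain ⟨t, ht, ht1, -⟩ := exists_time n i 0
    obtain ⟨h1, h2⟩ := key t ht.le
    have e1 := h t ht
    have e2 := h' t ht
    rw [h1] at e1
    rw [h2] at e2
    exact (step_left (by simpa using hik) e1 e2).2.2 ht1
  · exact sync_aux h h' i k hu hu'
  · exact sync_aux h' h k i hu' hu
  · have hik : i ≠ k := by
      intro e
      apply hall 0 (Nat.zero_le _)
      rw [hu, hu', e]
    have key : ∀ j ≤ N n, u j = .inr (i + j) ∧ u' j = .inr (k + j) := by
      intro j
      induction j with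
      | zero => intro _; simp [hu, hu']
      | succ j ih =>
        intro hj
        obtain ⟨h1, h2⟩ := ih (by omega)
        have e1 := h j (by omega)
        have e2 := h' j (by omega)
        rw [h1] at e1
        rw [h2] at e2
        obtain ⟨h3, h4, -⟩ := step_right (by simpa using hik) e1 e2
        rw [h3, h4]
        push_cast
        constructor <;> ring_nf
    obtain ⟨t, ht, -, ht1⟩ := exists_time n 0 i
    obtain ⟨h1, h2⟩ := key t ht.le
    have e1 := h t ht
    have e2 := h' t ht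
    rw [h1] at e1
    rw [h2] at e2
    exact (step_right (by simpa using hik) e1 e2).2.2 ht1

/-- The presentation given by the relation `Step`. -/
def G (n : ℕ) : Presentation (Fin 5) where
  V := V n
  E := {t : V n × Fin 5 × V n // Step n t.1 t.2.1 t.2.2}
  finite_V := inferInstance
  finite_E := inferInstance
  src t := t.1.1
  tgt t := t.1.2.2
  lab t := t.1.2.1

/-- The example: the shift presented by `G n`. -/
def X (n : ℕ) : Set (ℤ → Fin 5) := (G n).shift

theorem mem_X_iff (n : ℕ) (x : ℤ → Fin 5) :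
    x ∈ X n ↔ ∃ v : ℤ → V n, ∀ i, Step n (v i) (x i) (v (i + 1)) := by
  constructor
  · rintro ⟨e, he1, he2⟩
    refine ⟨fun i => (e i).1.1, fun i => ?_⟩
    have h := (e i).2
    have e1 : (e (i + 1)).1.1 = (e i).1.2.2 := (he1 i).symm
    have e2 : x i = (e i).1.2.1 := he2 i
    show Step n (e i).1.1 (x i) (e (i + 1)).1.1
    rw [e1, e2]
    exact h
  · rintro ⟨v, hv⟩
    refine ⟨fun i => ⟨(v i, x i, v (i + 1)), hv i⟩, fun i => rfl, fun i => rfl⟩

theorem det_G (n : ℕ) : (G n).Deterministic := by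
  rintro ⟨⟨u, x, v⟩, h⟩ ⟨⟨u', x', v'⟩, h'⟩ h1 h2
  simp only [G] at h1 h2
  subst h1 h2
  have := h.det h'
  subst this
  rfl

theorem isPath_det {n : ℕ} : ∀ (w : List (Fin 5)) (u v v' : V n), (G n).IsPath u w v →
    (G n).IsPath u w v' → v = v' := by
  intro w
  induction w with
  | nil =>
    intro u v v' h h'
    exact h.symm.trans h'
  | cons a w ih =>
    intro u v v' h h'
    obtain ⟨e, he1, he2, he3⟩ := h
    obtain ⟨e', he1', he2', he3'⟩ := h'
    have : e = e' := det_G n e e' (he1.trans he1'.symm) (he2.trans he2'.symm)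
    subst this
    exact ih _ _ _ he3 he3'

theorem isPath_cons {n : ℕ} {a : Fin 5} {w : List (Fin 5)} {u v : V n} :
    (G n).IsPath u (a :: w) v ↔ ∃ u' : V n, Step n u a u' ∧ (G n).IsPath u' w v := by
  constructor
  · rintro ⟨⟨⟨u1, a1, u2⟩, h⟩, rfl, rfl, h3⟩
    exact ⟨u2, h, h3⟩
  · rintro ⟨u', h1, h2⟩
    exact ⟨⟨(u, a, u'), h1⟩, rfl, rfl, h2⟩

theorem isPath_append {n : ℕ} : ∀ (w w' : List (Fin 5)) (u v v' : V n), (G n).IsPath u w v →
    (G n).IsPath v w' v' → (G n).IsPath u (w ++ w') v' := by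
  intro w
  induction w with
  | nil =>
    intro w' u v v' h h'
    have h2 : u = v := h
    subst h2
    exact h'
  | cons a w ih =>
    intro w' u v v' h h'
    rw [isPath_cons] at h
    obtain ⟨u', h1, h2⟩ := h
    rw [List.cons_append, isPath_cons]
    exact ⟨u', h1, ih w' u' v v' h2 h'⟩

/-- Paths along the first cycle. -/
theorem path_left (n : ℕ) : ∀ k : ℕ, k < n + 2 →
    ∃ w : List (Fin 5), (G n).IsPath (.inl 1) w (.inl (1 + k)) := by
  intro k
  induction k with
  | zero => intro _; exact ⟨[], by simp [Presentation.IsPath]⟩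
  | succ k ih =>
    intro hk
    obtain ⟨w, hw⟩ := ih (by omega)
    refine ⟨w ++ [1], isPath_append _ _ _ _ _ hw ?_⟩
    rw [isPath_cons]
    refine ⟨.inl (1 + k + 1), ?_, ?_⟩
    · refine ⟨Or.inr ⟨?_, Or.inl rfl⟩, rfl⟩
      intro h0
      have h1 : ((1 + k : ℕ) : ZMod (n + 2)) = 0 := by push_cast; exact h0
      rw [ZMod.natCast_eq_zero_iff] at h1
      exact absurd (Nat.le_of_dvd (by omega) h1) (by omega)
    · simp only [Presentation.IsPath]
      push_cast
      ring_nf

/-- Paths along the second cycle. -/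
theorem path_right (n : ℕ) : ∀ k : ℕ, k < n + 3 →
    ∃ w : List (Fin 5), (G n).IsPath (.inr 1) w (.inr (1 + k)) := by
  intro k
  induction k with
  | zero => intro _; exact ⟨[], by simp [Presentation.IsPath]⟩
  | succ k ih =>
    intro hk
    obtain ⟨w, hw⟩ := ih (by omega)
    refine ⟨w ++ [0], isPath_append _ _ _ _ _ hw ?_⟩
    rw [isPath_cons]
    refine ⟨.inr (1 + k + 1), ?_, ?_⟩
    · refine ⟨Or.inr ⟨?_, Or.inl rfl⟩, rfl⟩
      intro h0
      have h1 : ((1 + k : ℕ) : ZMod (n + 3)) = 0 := by push_cast; exact h0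
      rw [ZMod.natCast_eq_zero_iff] at h1
      exact absurd (Nat.le_of_dvd (by omega) h1) (by omega)
    · simp only [Presentation.IsPath]
      push_cast
      ring_nf

theorem path_left' (n : ℕ) (i : ZMod (n + 2)) :
    ∃ w : List (Fin 5), (G n).IsPath (.inl 1) w (.inl i) := by
  obtain ⟨w, hw⟩ := path_left n (i - 1).val (ZMod.val_lt _)
  refine ⟨w, ?_⟩
  rw [ZMod.natCast_zmod_val] at hw
  simpa using hw

theorem path_right' (n : ℕ) (i : ZMod (n + 3)) :
    ∃ w : List (Fin 5), (G n).IsPath (.inr 1) w (.inr i) := by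
  obtain ⟨w, hw⟩ := path_right n (i - 1).val (ZMod.val_lt _)
  refine ⟨w, ?_⟩
  rw [ZMod.natCast_zmod_val] at hw
  simpa using hw

/-- The letter `4` labels a unique edge, ending at the vertex `1` of the first cycle. -/
theorem step_four {n : ℕ} {u v : V n} (h : Step n u 4 v) : u = .inr 0 ∧ v = .inl 1 := by
  rcases u with i | i <;> rcases v with j | j <;> simp only [Step] at h
  · rcases h.1 with ⟨_, h⟩ | ⟨_, h | h⟩ <;> simp at h
  · simp at h
  · obtain ⟨⟨h1, _⟩, h2⟩ := h
    rw [h1, h2]
    exact ⟨rfl, rfl⟩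
  · rcases h.1 with ⟨_, h⟩ | ⟨_, h | h⟩ <;> simp at h

/-- The letter `3` labels a unique edge, ending at the vertex `1` of the second cycle. -/
theorem step_three {n : ℕ} {u v : V n} (h : Step n u 3 v) : u = .inl 0 ∧ v = .inr 1 := by
  rcases u with i | i <;> rcases v with j | j <;> simp only [Step] at h
  · rcases h.1 with ⟨_, h⟩ | ⟨_, h | h⟩ <;> simp at h
  · obtain ⟨⟨h1, _⟩, h2⟩ := h
    rw [h1, h2]
    exact ⟨rfl, rfl⟩
  · simp at h
  · rcases h.1 with ⟨_, h⟩ | ⟨_, h | h⟩ <;> simp at h

theorem syncDet_G (n : ℕ) : (G n).IsSynchronizingDeterministic := by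
  refine ⟨det_G n, ?_⟩
  intro q
  rcases (q : V n) with i | i
  · obtain ⟨w, hw⟩ := path_left' n i
    refine ⟨4 :: w, ⟨.inr 0, .inl i, ?_⟩, ?_⟩
    · rw [isPath_cons]
      exact ⟨.inl 1, ⟨⟨rfl, rfl⟩, rfl⟩, hw⟩
    · intro u v h
      rw [isPath_cons] at h
      obtain ⟨u', h1, h2⟩ := h
      obtain ⟨-, rfl⟩ := step_four h1
      exact isPath_det _ _ _ _ h2 hw
  · obtain ⟨w, hw⟩ := path_right' n i
    refine ⟨3 :: w, ⟨.inl 0, .inr i, ?_⟩, ?_⟩
    · rw [isPath_cons]
      exact ⟨.inr 1, ⟨⟨rfl, rfl⟩, rfl⟩, hw⟩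
    · intro u v h
      rw [isPath_cons] at h
      obtain ⟨u', h1, h2⟩ := h
      obtain ⟨-, rfl⟩ := step_three h1
      exact isPath_det _ _ _ _ h2 hw

theorem exists_local_path {n M : ℕ} {x : ℤ → Fin 5}
    (hx : ∀ w ∈ {w : List (Fin 5) | w.length = M + 1 ∧
      ¬ ∃ v : ℕ → V n, ∀ j : Fin w.length, Step n (v j) (w.get j) (v (j + 1))}, ¬ Occurs w x)
    (i : ℤ) : ∃ v : ℕ → V n, ∀ j ≤ M, Step n (v j) (x (i + j)) (v (j + 1)) := by
  by_contra hcon
  apply hx (List.ofFn (fun j : Fin (M + 1) => x (i + (j : ℕ))))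
  · refine ⟨by simp, ?_⟩
    rintro ⟨v, hv⟩
    apply hcon
    refine ⟨v, fun j hj => ?_⟩
    have := hv ⟨j, by rw [List.length_ofFn]; omega⟩
    simpa only [List.get_eq_getElem, List.getElem_ofFn] using this
  · refine ⟨i, fun j => ?_⟩
    simp only [List.get_eq_getElem, List.getElem_ofFn]

theorem isStep_X (n : ℕ) : IsStep (N n) (X n) := by
  refine ⟨{w : List (Fin 5) | w.length = N n + 1 ∧
      ¬ ∃ v : ℕ → V n, ∀ j : Fin w.length, Step n (v j) (w.get j) (v (j + 1))},
      fun w hw => hw.1, ?_⟩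
  ext x
  rw [mem_X_iff]
  constructor
  · rintro ⟨v, hv⟩ w hw ⟨i, hi⟩
    apply hw.2
    refine ⟨fun j => v (i + j), fun j => ?_⟩
    rw [← hi j]
    have := hv (i + (j : ℕ))
    rw [show i + ((j : ℕ) : ℤ) + 1 = i + (((j : ℕ) + 1 : ℕ) : ℤ) by push_cast; ring] at this
    exact this
  · intro hx
    choose v hv using exists_local_path hx
    refine ⟨fun i => v (i - N n) (N n), fun i => ?_⟩
    have h1 := hv (i - N n) (N n) le_rfl
    rw [show i - (N n : ℤ) + (N n : ℕ) = i by ring] at h1
    have h2 : v (i - N n) (N n + 1) = v (i + 1 - N n) (N n) := by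
      have := sync (n := n) (f := fun j => x (i + 1 - N n + j))
        (u := fun j => v (i - N n) (j + 1)) (u' := fun j => v (i + 1 - N n) j) ?_ ?_
      · exact this
      · intro j hj
        have h3 := hv (i - N n) (j + 1) hj
        rw [show i - (N n : ℤ) + ((j + 1 : ℕ) : ℤ) = i + 1 - (N n : ℤ) + j by push_cast; ring] at h3
        exact h3
      · intro j hj
        exact hv (i + 1 - N n) j hj.le
    rw [h2] at h1
    exact h1

theorem isSFT_of_isStep {A : Type} [Finite A] {M : ℕ} {Y : Set (ℤ → A)} (h : IsStep M Y) :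
    IsSFT Y := by
  obtain ⟨F, hF, hY⟩ := h
  refine ⟨F, ?_, hY⟩
  apply Set.Finite.subset (List.finite_length_eq A (M + 1))
  intro w hw
  exact hF w hw

/-- A set of the form `IsStep M` allows cutting and pasting along common words of length `M`. -/
theorem IsStep.splice {A : Type} {M : ℕ} {Y : Set (ℤ → A)} (h : IsStep M Y) {x y z : ℤ → A}
    (hx : x ∈ Y) (hy : y ∈ Y) (T : ℤ) (h1 : ∀ t < T + M, z t = x t) (h2 : ∀ t ≥ T, z t = y t) :
    z ∈ Y := by
  obtain ⟨F, hF, hY⟩ := h
  rw [hY] at hx hy ⊢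
  rintro w hw ⟨i, hi⟩
  have hl := hF w hw
  by_cases hc : i < T
  · apply hx w hw
    refine ⟨i, fun j => ?_⟩
    rw [← hi j, h1]
    have := j.2
    omega
  · apply hy w hw
    refine ⟨i, fun j => ?_⟩
    rw [← hi j, h2]
    omega

/-- Labels of a bi-infinite walk along the first cycle. -/
def labL (n : ℕ) (t : ℤ) : Fin 5 :=
  if ((t : ℤ) : ZMod (n + 2)) = 0 then 0 else if ((t : ℤ) : ZMod (n + 3)) = 0 then 1 else 2

/-- Labels of a bi-infinite walk along the second cycle. -/
def labR (n : ℕ) (t : ℤ) : Fin 5 :=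
  if ((t : ℤ) : ZMod (n + 3)) = 0 then 1 else if ((t : ℤ) : ZMod (n + 2)) = 0 then 0 else 2

theorem step_labL (n : ℕ) (t : ℤ) :
    Step n (.inl (t : ZMod (n + 2))) (labL n t) (.inl ((t + 1 : ℤ) : ZMod (n + 2))) := by
  refine ⟨?_, by push_cast; rfl⟩
  unfold labL
  split_ifs with h1 h2
  · exact Or.inl ⟨h1, rfl⟩
  · exact Or.inr ⟨h1, Or.inl rfl⟩
  · exact Or.inr ⟨h1, Or.inr rfl⟩

theorem step_labR (n : ℕ) (t : ℤ) :
    Step n (.inr (t : ZMod (n + 3))) (labR n t) (.inr ((t + 1 : ℤ) : ZMod (n + 3))) := by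
  refine ⟨?_, by push_cast; rfl⟩
  unfold labR
  split_ifs with h1 h2
  · exact Or.inl ⟨h1, rfl⟩
  · exact Or.inr ⟨h1, Or.inl rfl⟩
  · exact Or.inr ⟨h1, Or.inr rfl⟩

theorem labL_eq_labR (n : ℕ) (t : ℤ) (h0 : 0 < t) (h1 : t < N n) : labL n t = labR n t := by
  unfold labL labR
  split_ifs with h2 h3
  · exfalso
    rw [ZMod.intCast_zmod_eq_zero_iff_dvd] at h2 h3
    have hc : IsCoprime ((n + 2 : ℕ) : ℤ) ((n + 3 : ℕ) : ℤ) := by
      rw [Nat.isCoprime_iff_coprime]
      have : n + 3 = (n + 2) + 1 := rfl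
      rw [this]
      exact (Nat.coprime_self_add_right).mpr (Nat.coprime_one_right _)
    have h4 := hc.mul_dvd h2 h3
    have h5 := Int.le_of_dvd h0 h4
    unfold N at h1
    push_cast at h1 h5
    linarith
  · rfl
  · rfl
  · rfl

theorem N_cast_left (n : ℕ) : ((N n : ℤ) : ZMod (n + 2)) = 0 := by
  rw [ZMod.intCast_zmod_eq_zero_iff_dvd]
  unfold N
  push_cast
  exact Dvd.intro _ rfl

theorem N_cast_right (n : ℕ) : ((N n : ℤ) : ZMod (n + 3)) = 0 := by
  rw [ZMod.intCast_zmod_eq_zero_iff_dvd]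
  unfold N
  push_cast
  exact Dvd.intro_left _ rfl

/-- First auxiliary sequence. -/
def xs (n : ℕ) (t : ℤ) : Fin 5 := if 0 < t then labL n t else if t = 0 then 4 else labR n t

/-- Second auxiliary sequence. -/
def ys (n : ℕ) (t : ℤ) : Fin 5 :=
  if t < N n then labR n t else if t = N n then 4 else labL n (t - N n)

/-- The pasted sequence. -/
def zs (n : ℕ) (t : ℤ) : Fin 5 := if t < N n then xs n t else ys n t

theorem xs_mem (n : ℕ) : xs n ∈ X n := by
  rw [mem_X_iff]
  refine ⟨fun t => if 0 < t then .inl (t : ZMod (n + 2)) else .inr (t : ZMod (n + 3)), fun t => ?_⟩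
  rcases lt_trichotomy 0 t with h | h | h
  · have h1 : 0 < t + 1 := by omega
    simp only [xs, h, h1, if_true]
    exact step_labL n t
  · subst h
    simp only [xs, lt_irrefl, if_false, if_true, zero_add, Int.cast_zero, Int.cast_one, zero_lt_one]
    exact ⟨⟨rfl, rfl⟩, rfl⟩
  · have h1 : ¬ 0 < t := by omega
    have h2 : ¬ 0 < t + 1 := by omega
    have h3 : t ≠ 0 := by omega
    simp only [xs, h1, h2, h3, if_false]
    exact step_labR n t

theorem ys_mem (n : ℕ) : ys n ∈ X n := by
  rw [mem_X_iff]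
  refine ⟨fun t => if t ≤ N n then .inr (t : ZMod (n + 3)) else
    .inl ((t - N n : ℤ) : ZMod (n + 2)), fun t => ?_⟩
  rcases lt_trichotomy t (N n : ℤ) with h | h | h
  · have h1 : t + 1 ≤ N n := by omega
    simp only [ys, h, h1, h.le, if_true]
    exact step_labR n t
  · subst h
    have h2 : ¬ (N n : ℤ) + 1 ≤ (N n : ℤ) := by omega
    have e1 : ys n (N n) = 4 := by rw [ys, if_neg (lt_irrefl _), if_pos rfl]
    rw [e1]
    simp only [h2, if_false, le_refl, if_true]
    refine ⟨⟨N_cast_right n, rfl⟩, ?_⟩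
    simp
  · have h1 : ¬ t < (N n : ℤ) := by omega
    have h2 : ¬ t + 1 ≤ (N n : ℤ) := by omega
    have h3 : ¬ t ≤ (N n : ℤ) := by omega
    have h4 : t ≠ (N n : ℤ) := by omega
    simp only [ys, h1, h2, h3, h4, if_false]
    have := step_labL n (t - N n)
    rw [show t - (N n : ℤ) + 1 = t + 1 - N n by ring] at this
    exact this

theorem zs_not_mem (n : ℕ) : zs n ∉ X n := by
  rw [mem_X_iff]
  rintro ⟨v, hv⟩
  have hN : 0 < N n := by unfold N; positivity
  have h0 : v 1 = .inl 1 := by
    have h := hv 0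
    have e : zs n 0 = 4 := by
      have : (0 : ℤ) < N n := by exact_mod_cast hN
      rw [zs, if_pos this, xs, if_neg (lt_irrefl _), if_pos rfl]
    rw [e, zero_add] at h
    exact (step_four h).2
  have key : ∀ k : ℕ, k + 1 ≤ N n → v ((k + 1 : ℕ) : ℤ) = .inl ((k + 1 : ℕ) : ZMod (n + 2)) := by
    intro k
    induction k with
    | zero => intro _; simpa using h0
    | succ k ih =>
      intro hk
      have e := ih (by omega)
      have h := hv ((k + 1 : ℕ) : ℤ)
      have e2 : zs n ((k + 1 : ℕ) : ℤ) = labL n ((k + 1 : ℕ) : ℤ) := by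
        have h3 : (((k + 1 : ℕ) : ℤ)) < N n := by exact_mod_cast hk
        have h4 : 0 < ((k + 1 : ℕ) : ℤ) := by positivity
        simp only [zs, xs, h3, h4, if_true]
      rw [e, e2] at h
      have h5 := step_labL n ((k + 1 : ℕ) : ℤ)
      rw [Int.cast_natCast] at h5
      have h6 := h.det h5
      rw [show (((k + 1 + 1 : ℕ)) : ℤ) = ((k + 1 : ℕ) : ℤ) + 1 by push_cast; ring, h6]
      push_cast
      rfl
  have h1 := key (N n - 1) (by omega)
  rw [show N n - 1 + 1 = N n by omega] at h1
  have h2 := hv (N n)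
  have e : zs n (N n) = 4 := by simp [zs, ys]
  rw [e, h1] at h2
  have := (step_four h2).1
  exact absurd this (by simp)

theorem le_of_isStep {n M : ℕ} (h : IsStep M (X n)) : N n ≤ M := by
  by_contra hM
  apply zs_not_mem n
  apply h.splice (xs_mem n) (ys_mem n) ((N n : ℤ) - M)
  · intro t ht
    have : t < N n := by omega
    simp only [zs, this, if_true]
  · intro t ht
    by_cases h1 : t < N n
    · have h0 : 0 < t := by omega
      simp only [zs, xs, ys, h1, h0, if_true]
      exact labL_eq_labR n t h0 h1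
    · simp only [zs, h1, if_false]

theorem minStep_X (n : ℕ) : minStep (X n) = N n := by
  apply le_antisymm
  · exact Nat.sInf_le (isStep_X n)
  · exact le_csInf ⟨N n, isStep_X n⟩ (fun M hM => le_of_isStep hM)

theorem minVertices_X_le (n : ℕ) : minVertices (X n) ≤ 2 * n + 5 := by
  apply Nat.sInf_le
  refine ⟨G n, syncDet_G n, rfl, ?_⟩
  show Nat.card (ZMod (n + 2) ⊕ ZMod (n + 3)) = 2 * n + 5
  rw [Nat.card_sum, Nat.card_zmod, Nat.card_zmod]
  ring

/-- The constant sequence `b` is not in the shift. -/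
theorem const_not_mem (n : ℕ) : (fun _ => 1) ∉ X n := by
  rw [mem_X_iff]
  rintro ⟨v, hv⟩
  have hr : ∀ t, ∀ k, v t ≠ .inr k := by
    intro t k hk
    have h1 := hv t
    rw [hk] at h1
    rcases h2 : v (t + 1) with i | i
    · rw [h2] at h1
      simp [Step] at h1
    · rw [h2] at h1
      simp only [Step] at h1
      obtain ⟨h3, h4⟩ := h1
      have hk0 : k = 0 := by
        rcases h3 with ⟨h, _⟩ | ⟨_, h | h⟩
        · exact h
        · simp at h
        · simp at h
      subst hk0
      have h5 := hv (t + 1)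
      rw [h2, h4] at h5
      have hne : (0 + 1 : ZMod (n + 3)) ≠ 0 := by
        rw [zero_add]
        have : Fact (1 < n + 3) := ⟨by omega⟩
        exact one_ne_zero
      rcases h6 : v (t + 1 + 1) with j | j
      · rw [h6] at h5
        simp [Step] at h5
      · rw [h6] at h5
        simp only [Step] at h5
        rcases h5.1 with ⟨h, _⟩ | ⟨_, h | h⟩
        · exact hne h
        · simp at h
        · simp at h
  have hl : ∀ t : ℤ, ∃ i, v t = .inl i := by
    intro t
    rcases h : v t with i | i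
    · exact ⟨i, rfl⟩
    · exact absurd h (hr t i)
  obtain ⟨i, hi⟩ := hl 0
  have key : ∀ k : ℕ, v k = .inl (i + k) := by
    intro k
    induction k with
    | zero => simpa using hi
    | succ k ih =>
      have h := hv k
      rw [ih] at h
      obtain ⟨j, hj⟩ := hl (k + 1)
      rw [hj] at h
      push_cast
      rw [hj, h.2, add_assoc]
  have h1 := key (-i).val
  have h2 := hv (-i).val
  rw [h1, ZMod.natCast_zmod_val, add_neg_cancel] at h2
  obtain ⟨j, hj⟩ := hl (((-i).val : ℕ) + 1)
  rw [hj] at h2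
  simp [Step] at h2

/-- A periodic sequence along the first cycle. -/
def ps (n : ℕ) (t : ℤ) : Fin 5 := if ((t : ℤ) : ZMod (n + 2)) = 0 then 0 else 1

theorem ps_mem (n : ℕ) : ps n ∈ X n := by
  rw [mem_X_iff]
  refine ⟨fun t => .inl (t : ZMod (n + 2)), fun t => ?_⟩
  refine ⟨?_, by push_cast; rfl⟩
  unfold ps
  split_ifs with h1
  · exact Or.inl ⟨h1, rfl⟩
  · exact Or.inr ⟨h1, Or.inl rfl⟩

theorem le_card_of_shift_eq (n : ℕ) (H : Presentation (Fin 5)) (hH : H.shift = X n) :
    n + 2 ≤ Nat.card H.V := by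
  by_contra hcon
  have hfin := H.finite_V
  have hmem : ps n ∈ H.shift := by rw [hH]; exact ps_mem n
  obtain ⟨e, he1, he2⟩ := hmem
  obtain ⟨s, t, hst, hs, ht, hEq⟩ : ∃ s t : ℤ, s < t ∧ 1 ≤ s ∧ t ≤ n + 2 ∧
      H.src (e s) = H.src (e t) := by
    have hfv : Fintype H.V := Fintype.ofFinite _
    have hc : Fintype.card H.V < Fintype.card (Fin (n + 2)) := by
      rw [Fintype.card_fin, ← Nat.card_eq_fintype_card]
      omega
    obtain ⟨a, b, hab, hf⟩ := Fintype.exists_ne_map_eq_of_card_lt
      (fun j : Fin (n + 2) => H.src (e (((j : ℕ) + 1 : ℕ) : ℤ))) hc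
    have ha := a.2
    have hb := b.2
    have hne : (a : ℕ) ≠ b := fun h => hab (Fin.ext h)
    rcases lt_or_gt_of_ne hne with h | h
    · exact ⟨((a : ℕ) + 1 : ℕ), ((b : ℕ) + 1 : ℕ), by push_cast; omega, by push_cast; omega,
        by push_cast; omega, hf⟩
    · exact ⟨((b : ℕ) + 1 : ℕ), ((a : ℕ) + 1 : ℕ), by push_cast; omega, by push_cast; omega,
        by push_cast; omega, hf.symm⟩
  apply const_not_mem n
  rw [← hH]
  have hd : 0 < t - s := by omega
  refine ⟨fun i => e (s + i % (t - s)), fun i => ?_, fun i => ?_⟩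
  · have h1 := Int.emod_nonneg i hd.ne'
    have h2 := Int.emod_lt_of_pos i hd
    by_cases h3 : i % (t - s) + 1 < t - s
    · have h4 : (i + 1) % (t - s) = i % (t - s) + 1 := by
        rw [Int.add_emod, Int.emod_eq_of_lt (a := 1) (by omega) (by omega)]
        exact Int.emod_eq_of_lt (by omega) h3
      show H.tgt (e (s + i % (t - s))) = H.src (e (s + (i + 1) % (t - s)))
      rw [h4, he1, show s + i % (t - s) + 1 = s + (i % (t - s) + 1) by ring]
    · have h5 : i % (t - s) = t - s - 1 := by omega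
      have h4 : (i + 1) % (t - s) = 0 := by
        have h6 : i + 1 = (t - s) * (i / (t - s) + 1) := by
          have := Int.mul_ediv_add_emod i (t - s)
          rw [h5] at this
          linarith
        rw [h6]
        exact Int.mul_emod_right _ _
      show H.tgt (e (s + i % (t - s))) = H.src (e (s + (i + 1) % (t - s)))
      rw [h4, h5, he1, show s + (t - s - 1) + 1 = t by ring, add_zero, hEq]
  · have h1 := Int.emod_nonneg i hd.ne'
    have h2 := Int.emod_lt_of_pos i hd
    show 1 = H.lab (e (s + i % (t - s)))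
    rw [← he2]
    unfold ps
    rw [if_neg]
    rw [ZMod.intCast_zmod_eq_zero_iff_dvd]
    intro h
    have := Int.le_of_dvd (by omega) h
    push_cast at this
    omega

theorem le_minVertices_X (n : ℕ) : n + 2 ≤ minVertices (X n) := by
  apply le_csInf
  · exact ⟨_, G n, syncDet_G n, rfl, rfl⟩
  · rintro m ⟨H, -, hH, rfl⟩
    exact le_card_of_shift_eq n H hH

/-! ### Irreducibility -/

theorem path_inl (n : ℕ) (i : ZMod (n + 2)) : ∀ k : ℕ,
    ∃ w : List (Fin 5), (G n).IsPath (.inl i) w (.inl (i + k)) := by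
  intro k
  induction k with
  | zero => exact ⟨[], by simp [Presentation.IsPath]⟩
  | succ k ih =>
    obtain ⟨w, hw⟩ := ih
    refine ⟨w ++ [if i + k = 0 then 0 else 1], isPath_append _ _ _ _ _ hw ?_⟩
    rw [isPath_cons]
    refine ⟨.inl (i + k + 1), ⟨?_, rfl⟩, ?_⟩
    · split_ifs with h
      · exact Or.inl ⟨h, rfl⟩
      · exact Or.inr ⟨h, Or.inl rfl⟩
    · simp only [Presentation.IsPath]
      push_cast
      ring_nf

theorem path_inr (n : ℕ) (i : ZMod (n + 3)) : ∀ k : ℕ,
    ∃ w : List (Fin 5), (G n).IsPath (.inr i) w (.inr (i + k)) := by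
  intro k
  induction k with
  | zero => exact ⟨[], by simp [Presentation.IsPath]⟩
  | succ k ih =>
    obtain ⟨w, hw⟩ := ih
    refine ⟨w ++ [if i + k = 0 then 1 else 0], isPath_append _ _ _ _ _ hw ?_⟩
    rw [isPath_cons]
    refine ⟨.inr (i + k + 1), ⟨?_, rfl⟩, ?_⟩
    · split_ifs with h
      · exact Or.inl ⟨h, rfl⟩
      · exact Or.inr ⟨h, Or.inl rfl⟩
    · simp only [Presentation.IsPath]
      push_cast
      ring_nf

theorem path_inl' (n : ℕ) (i j : ZMod (n + 2)) :
    ∃ w : List (Fin 5), (G n).IsPath (.inl i) w (.inl j) := by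
  obtain ⟨w, hw⟩ := path_inl n i (j - i).val
  refine ⟨w, ?_⟩
  rw [ZMod.natCast_zmod_val] at hw
  simpa using hw

theorem path_inr' (n : ℕ) (i j : ZMod (n + 3)) :
    ∃ w : List (Fin 5), (G n).IsPath (.inr i) w (.inr j) := by
  obtain ⟨w, hw⟩ := path_inr n i (j - i).val
  refine ⟨w, ?_⟩
  rw [ZMod.natCast_zmod_val] at hw
  simpa using hw

theorem connected (n : ℕ) (u v : V n) : ∃ w : List (Fin 5), (G n).IsPath u w v := by
  rcases u with i | i <;> rcases v with j | j
  · exact path_inl' n i j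
  · obtain ⟨w1, h1⟩ := path_inl' n i 0
    obtain ⟨w2, h2⟩ := path_inr' n 1 j
    refine ⟨w1 ++ 3 :: w2, isPath_append _ _ _ _ _ h1 ?_⟩
    rw [isPath_cons]
    exact ⟨.inr 1, ⟨⟨rfl, rfl⟩, rfl⟩, h2⟩
  · obtain ⟨w1, h1⟩ := path_inr' n i 0
    obtain ⟨w2, h2⟩ := path_inl' n 1 j
    refine ⟨w1 ++ 4 :: w2, isPath_append _ _ _ _ _ h1 ?_⟩
    rw [isPath_cons]
    exact ⟨.inl 1, ⟨⟨rfl, rfl⟩, rfl⟩, h2⟩
  · exact path_inr' n i j

theorem exists_vertices {n : ℕ} : ∀ (p : List (Fin 5)) (u v : V n), (G n).IsPath u p v →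
    ∃ g : ℕ → V n, g 0 = u ∧ g p.length = v ∧
      ∀ j : ℕ, ∀ h : j < p.length, Step n (g j) p[j] (g (j + 1)) := by
  intro p
  induction p with
  | nil =>
    intro u v h
    have h2 : u = v := h
    subst h2
    exact ⟨fun _ => u, rfl, rfl, fun j hj => absurd hj (by simp)⟩
  | cons a p ih =>
    intro u v h
    rw [isPath_cons] at h
    obtain ⟨u', h1, h2⟩ := h
    obtain ⟨g, hg0, hg1, hg2⟩ := ih u' v h2
    refine ⟨fun j => Nat.casesOn j u g, rfl, hg1, ?_⟩
    intro j hj
    rcases j with _ | j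
    · show Step n u a (g 0)
      rw [hg0]
      exact h1
    · exact hg2 j (by simpa using hj)

theorem isIrreducible_X (n : ℕ) : IsIrreducible (X n) := by
  refine ⟨⟨_, xs_mem n⟩, ?_⟩
  rintro u ⟨x, hx, i0, hu⟩ w ⟨y, hy, k0, hw⟩
  rw [mem_X_iff] at hx hy
  obtain ⟨v, hv⟩ := hx
  obtain ⟨v', hv'⟩ := hy
  obtain ⟨p, hp⟩ := connected n (v (i0 + u.length)) (v' k0)
  obtain ⟨g, hg0, hg1, hg2⟩ := exists_vertices p _ _ hp
  refine ⟨p, ?_⟩
  set a : ℤ := i0 + u.length with ha
  set b : ℤ := a + p.length with hb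
  -- the pasted walk
  let W : ℤ → V n := fun t => if t < a then v t else if t < b then g (t - a).toNat
    else v' (t - b + k0)
  let z : ℤ → Fin 5 := fun t => if t < a then x t else if t < b then
    p.getD (t - a).toNat 0 else y (t - b + k0)
  have W1 : ∀ t, t ≤ a → W t = v t := by
    intro t ht
    by_cases h1 : t < a
    · simp only [W, h1, if_true]
    · have h2 : t = a := by omega
      subst h2
      by_cases h3 : a < b
      · simp only [W, lt_irrefl, if_false, h3, if_true, sub_self, Int.toNat_zero]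
        exact hg0
      · have h4 : p.length = 0 := by omega
        have h5 : a = b := by omega
        simp only [W, lt_irrefl, if_false, h3]
        rw [h4] at hg1
        rw [← h5, sub_self, zero_add, ← hg1, hg0]
  have W2 : ∀ t, a ≤ t → t ≤ b → W t = g (t - a).toNat := by
    intro t h1 h2
    by_cases h3 : t < b
    · simp only [W, not_lt.mpr h1, if_false, h3, if_true]
    · have h4 : t = b := by omega
      have h5 : (b - a).toNat = p.length := by omega
      subst h4
      simp only [W, not_lt.mpr h1, if_false, lt_irrefl, sub_self, zero_add]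
      rw [h5, hg1]
  have W3 : ∀ t, b ≤ t → W t = v' (t - b + k0) := by
    intro t h1
    have h2 : ¬ t < a := by omega
    simp only [W, h2, if_false, not_lt.mpr h1]
  refine ⟨z, ?_, i0, ?_⟩
  · rw [mem_X_iff]
    refine ⟨W, fun t => ?_⟩
    by_cases h1 : t < a
    · rw [W1 t h1.le, W1 (t + 1) (by omega)]
      simp only [z, h1, if_true]
      exact hv t
    · by_cases h2 : t < b
      · rw [W2 t (by omega) h2.le, W2 (t + 1) (by omega) (by omega)]
        simp only [z, h1, h2, if_false, if_true]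
        have h3 : (t - a).toNat < p.length := by omega
        have h4 : (t + 1 - a).toNat = (t - a).toNat + 1 := by omega
        rw [h4, List.getD_eq_getElem _ _ h3]
        exact hg2 _ h3
      · rw [W3 t (by omega), W3 (t + 1) (by omega)]
        simp only [z, h1, h2, if_false]
        have h3 : t + 1 - b + k0 = t - b + k0 + 1 := by ring
        rw [h3]
        exact hv' _
  · rintro ⟨j, hj⟩
    simp only [List.length_append] at hj
    simp only [List.get_eq_getElem]
    by_cases h1 : j < u.length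
    · have h2 : i0 + (j : ℤ) < a := by omega
      simp only [z, h2, if_true]
      rw [List.getElem_append_left (by simp; omega), List.getElem_append_left h1]
      have := hu ⟨j, h1⟩
      simpa using this
    · by_cases h2 : j < u.length + p.length
      · have h3 : ¬ i0 + (j : ℤ) < a := by omega
        have h4 : i0 + (j : ℤ) < b := by omega
        simp only [z, h3, h4, if_true, if_false]
        rw [List.getElem_append_left (by simp; omega), List.getElem_append_right (by omega)]
        have h5 : (i0 + (j : ℤ) - a).toNat = j - u.length := by omega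
        rw [h5, List.getD_eq_getElem _ _ (by omega)]
      · have h3 : ¬ i0 + (j : ℤ) < a := by omega
        have h4 : ¬ i0 + (j : ℤ) < b := by omega
        simp only [z, h3, h4, if_false]
        rw [List.getElem_append_right (by simp; omega)]
        have h6 : j - (u ++ p).length < w.length := by simp; omega
        have h5 : i0 + (j : ℤ) - b + k0 = k0 + ((j - (u ++ p).length : ℕ) : ℤ) := by
          simp only [List.length_append]
          omega
        rw [h5]
        have := hw ⟨j - (u ++ p).length, h6⟩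
        simpa using this

/-- The quadratic upper bound for the minimum step is tight up to a constant factor, already for
irreducible shifts of finite type over a fixed alphabet with 5 letters. -/
theorem result : ∃ (c : ℝ) (Y : ℕ → Set (ℤ → Fin 5)), 0 < c ∧
    (∀ n, IsSFT (Y n) ∧ IsIrreducible (Y n)) ∧
    Tendsto (fun n => minVertices (Y n)) atTop atTop ∧
    ∀ n, c * (minVertices (Y n) : ℝ) ^ 2 ≤ (minStep (Y n) : ℝ) := by
  refine ⟨6 / 25, X, by norm_num, fun n => ⟨isSFT_of_isStep (isStep_X n), isIrreducible_X n⟩,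
    ?_, ?_⟩
  · exact tendsto_atTop_mono (fun n => (Nat.le_add_right n 2).trans (le_minVertices_X n))
      tendsto_id
  · intro n
    rw [minStep_X]
    have h1 : (minVertices (X n) : ℝ) ≤ 2 * n + 5 := by exact_mod_cast minVertices_X_le n
    have h0 : (0 : ℝ) ≤ (minVertices (X n) : ℝ) := Nat.cast_nonneg _
    have h2 : (minVertices (X n) : ℝ) ^ 2 ≤ (2 * n + 5) ^ 2 := pow_le_pow_left₀ h0 h1 2
    have h3 : (0 : ℝ) ≤ (n : ℝ) := Nat.cast_nonneg _
    unfold N
    push_cast
    nlinarith

end Pool.Agent.Results.MP_560fdc_co.QuadraticStep
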